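import Mathlib
import Pool.Agent.W2helper55.NT.Nowhere

set_option autoImplicit false

/-!
# MP_3937af_lc: an automorphism of the power set of an uncountable cardinal modulo the finite sets
# which is not trivial on any cocountable set

Adding `κ` Cohen reals (or subsets of an uncountable cardinal `κ` with finite conditions) adds such
an automorphism. It sends the set `B` to the set of those `x` which belong to the set which the name
of `B` denotes after the bit with index `x` of the generic sequence of bits has been changed. The
automorphism is not even trivial on any infinite subset of `κ`.

The forcing relation, and the sentences of the forcing language which occur in the statement, are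
defined in the starting files `Pool.Agent.H65R3.Forc` and `Pool.Agent.W917.Flip.Lang`.
-/

namespace Pool.Agent.Results.MP_3937af_lc.CohenFlip

open Cardinal Pool.Agent.H65R3.Forc Pool.Agent.W917.Flip

/-- In the extension by the forcing notion `P` there is an automorphism of the quotient of the power
set of `X` by the ideal of the finite sets which is not trivial on any set with countable complement
and not trivial on any infinite set. -/
def HasNowhereTrivialAut (P : Type) [Preorder P] (X : Type) : Set P :=
  fex fun T : RelName P X => fand (IsAut FinSet T)
    (fand
      (fall fun D : SetName P X => fimp (CtblSet fun x => fnot (Mem D x)) (fnot (IsTrivialOn T D)))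
      (fall fun D : SetName P X => fimp (fnot (FinSet (Mem D))) (fnot (IsTrivialOn T D))))

/-- For every uncountable cardinal `κ` there is a nonempty forcing notion `P`, every condition of
which forces that all the infinite cardinals of the ground model are still cardinals (so `κ` is an
uncountable cardinal of the extension), and that there is an automorphism of the quotient of the
power set of `κ` by the ideal of the finite sets which is not trivial on any cocountable subset of
`κ` and not trivial on any infinite subset of `κ`. -/
theorem result (κ : Cardinal.{0}) (hκ : ℵ₀ < κ) :
    ∃ (P : Type) (_ : Preorder P), Nonempty P ∧ ∀ p : P,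
      (∀ μ : Cardinal.{0}, ℵ₀ ≤ μ → p ∈ StaysCardinal P μ) ∧
      p ∈ HasNowhereTrivialAut P (K κ) := by
  refine ⟨Pool.Agent.H631R2.Cond (K κ), inferInstance, ⟨⟨∅, by simp⟩⟩,
    fun p => ⟨fun μ hμ => staysCardinal hμ p, ?_⟩⟩
  have hd : ∀ T : RelName (Pool.Agent.H631R2.Cond (K κ)) (K κ), Down (fand (IsAut FinSet T)
      (fand
        (fall fun D : SetName (Pool.Agent.H631R2.Cond (K κ)) (K κ) =>
          fimp (CtblSet fun x => fnot (Mem D x)) (fnot (IsTrivialOn T D)))
        (fall fun D : SetName (Pool.Agent.H631R2.Cond (K κ)) (K κ) =>
          fimp (fnot (FinSet (Mem D))) (fnot (IsTrivialOn T D))))) := fun T =>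
    down_fand (down_fand (down_fand (down_fall fun _ => down_fex _) (down_fall fun _ => down_fex _))
        (down_fall fun _ => down_fall fun _ => down_fall fun _ => down_fall fun _ =>
          down_fimp _ _))
      (down_fand (down_fall fun _ => down_fimp _ _) (down_fall fun _ => down_fimp _ _))
  exact mem_fex_of_mem (TT (K κ)) (hd _)
    ⟨isAut_TT ideal_fin (fun φ => finSet_eq φ) p,
      fin_nontrivial (by rw [mk_K]; exact not_le.2 hκ) p,
      Pool.Agent.W2helper55.NT.nowhere_trivial p⟩

end Pool.Agent.Results.MP_3937af_lc.CohenFlip
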